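import Mathlib

/-!
# The trace of an idempotent matrix over a local ring
-/

set_option autoImplicit false

namespace Pool.Agent.Y729.DB

open Module

theorem idem_proj {R M : Type*} [CommRing R] [AddCommGroup M] [Module R M]
    [Module.Projective R M] (f : M →ₗ[R] M) (hf : IsIdempotentElem f) :
    Module.Projective R (LinearMap.range f) := by
  have h := LinearMap.IsIdempotentElem.isProj_range f hf
  refine Module.Projective.of_split (LinearMap.range f).subtype h.codRestrict ?_
  ext x
  simp [h.codRestrict_apply_cod]

theorem idem_trace {R : Type*} [CommRing R] [IsLocalRing R] {m : Type*} [Fintype m]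
    [DecidableEq m] (X : Matrix m m R) (hX : X * X = X) :
    ∃ r : ℕ, r ≤ Fintype.card m ∧ X.trace = (r : R) ∧ (r = 0 → X = 0) := by
  set f : (m → R) →ₗ[R] (m → R) := Matrix.toLin' X with hf
  have hid : IsIdempotentElem f := by
    show f ∘ₗ f = f
    rw [hf, ← Matrix.toLin'_mul, hX]
  have hid' : IsIdempotentElem (LinearMap.id - f) := by
    have := hid.one_sub
    exact this
  have hker : LinearMap.ker f = LinearMap.range (LinearMap.id - f) := by
    ext x
    constructor
    · intro hx
      refine ⟨x, ?_⟩
      rw [LinearMap.mem_ker] at hx
      simp [hx]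
    · rintro ⟨y, rfl⟩
      have h1 : f (f y) = f y := LinearMap.congr_fun hid y
      simp [h1]
  have h1 := LinearMap.IsIdempotentElem.isProj_range f hid
  have : Module.Projective R (LinearMap.range f) := idem_proj f hid
  have : Module.Projective R (LinearMap.range (LinearMap.id - f)) := idem_proj _ hid'
  have : Module.Finite R (LinearMap.range f) := Module.Finite.range f
  have : Module.Finite R (LinearMap.range (LinearMap.id - f)) := Module.Finite.range _
  have : Module.Free R (LinearMap.range f) := Module.free_of_flat_of_isLocalRing
  have : Module.Free R (LinearMap.range (LinearMap.id - f)) := Module.free_of_flat_of_isLocalRing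
  have : Module.Free R (LinearMap.ker f) := by rw [hker]; infer_instance
  have : Module.Finite R (LinearMap.ker f) := by rw [hker]; infer_instance
  refine ⟨finrank R (LinearMap.range f), ?_, ?_, ?_⟩
  · refine (Submodule.finrank_le _).trans ?_
    rw [Module.finrank_fintype_fun_eq_card]
  · rw [← LinearMap.IsProj.trace h1, hf, Matrix.trace_toLin'_eq]
  · intro h0
    have hsub : Subsingleton (LinearMap.range f) := by
      rwa [Module.finrank_eq_zero_iff_of_free] at h0
    have hf0 : f = 0 := by
      refine LinearMap.ext fun y => ?_
      have h2 : (⟨f y, ⟨y, rfl⟩⟩ : LinearMap.range f) = 0 := Subsingleton.elim _ _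
      have h3 := congrArg Subtype.val h2
      simpa using h3
    have : Matrix.toLin' X = 0 := hf0
    rwa [LinearEquiv.map_eq_zero_iff] at this

end Pool.Agent.Y729.DB
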