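import Mathlib
import Pool.Agent.Y729.DB.Idem

/-!
# The trace of an element which is idempotent modulo a power of a prime
-/

set_option autoImplicit false

namespace Pool.Agent.Y729.DB

open Module nonZeroDivisors

theorem leftMul_mem {R S ι : Type*} [CommRing R] [CommRing S] [Algebra R S] [Fintype ι]
    [DecidableEq ι] (b : Module.Basis ι R S) (I : Ideal R) {y : S}
    (hy : y ∈ I.map (algebraMap R S)) : ∀ i j, Algebra.leftMulMatrix b y i j ∈ I := by
  refine Submodule.span_induction (p := fun y _ => ∀ i j, Algebra.leftMulMatrix b y i j ∈ I)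
    ?_ ?_ ?_ ?_ hy
  · rintro _ ⟨a, ha, rfl⟩ i j
    rw [AlgHom.commutes, Matrix.algebraMap_matrix_apply]
    split_ifs
    · exact ha
    · exact I.zero_mem
  · simp
  · intro x y _ _ hx hy i j
    rw [map_add, Matrix.add_apply]
    exact I.add_mem (hx i j) (hy i j)
  · intro a x _ hx i j
    rw [smul_eq_mul, map_mul, Matrix.mul_apply]
    exact I.sum_mem fun k _ => I.mul_mem_left _ (hx k j)

/-- in a free algebra over a local ring -/
theorem local_case {R S : Type*} [CommRing R] [IsLocalRing R] [CommRing S] [Algebra R S]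
    [Module.Free R S] [Module.Finite R S] (I : Ideal R) (hI : I ≠ ⊤) {x : S}
    (hx : x * x - x ∈ I.map (algebraMap R S)) (hx1 : x ∉ I.map (algebraMap R S)) :
    ∃ r : ℕ, 1 ≤ r ∧ r ≤ finrank R S ∧ Algebra.trace R S x - r ∈ I := by
  classical
  let ι := Module.Free.ChooseBasisIndex R S
  let b : Module.Basis ι R S := Module.Free.chooseBasis R S
  have : Nontrivial (R ⧸ I) := Ideal.Quotient.nontrivial_iff.2 hI
  have : IsLocalRing (R ⧸ I) := IsLocalRing.of_surjective' (Ideal.Quotient.mk I)
    Ideal.Quotient.mk_surjective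
  set X : Matrix ι ι R := Algebra.leftMulMatrix b x with hX
  have hmul : X.map (Ideal.Quotient.mk I) * X.map (Ideal.Quotient.mk I) =
      X.map (Ideal.Quotient.mk I) := by
    rw [← Matrix.map_mul]
    ext i j
    rw [Matrix.map_apply, Matrix.map_apply, ← sub_eq_zero, ← map_sub, Ideal.Quotient.eq_zero_iff_mem]
    have := leftMul_mem b I hx i j
    rw [map_sub, map_mul] at this
    exact this
  obtain ⟨r, hr1, hr2, hr3⟩ := idem_trace _ hmul
  refine ⟨r, ?_, ?_, ?_⟩
  · rw [Nat.one_le_iff_ne_zero]
    intro h0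
    apply hx1
    have h1 := hr3 h0
    have h2 : x = ∑ i, b.repr x i • b i := (b.sum_repr x).symm
    have h3 : (1 : S) = ∑ j, b.repr 1 j • b j := (b.sum_repr 1).symm
    have h4 : x = ∑ j, b.repr 1 j • (x * b j) := by
      conv_lhs => rw [← mul_one x, h3, Finset.mul_sum]
      refine Finset.sum_congr rfl fun j _ => ?_
      rw [mul_smul_comm]
    rw [h4]
    refine Ideal.sum_mem _ fun j _ => ?_
    rw [Algebra.smul_def]
    refine Ideal.mul_mem_left _ _ ?_
    have h5 : x * b j = ∑ i, b.repr (x * b j) i • b i := (b.sum_repr _).symm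
    rw [h5]
    refine Ideal.sum_mem _ fun i _ => ?_
    rw [Algebra.smul_def]
    refine Ideal.mul_mem_right _ _ (Ideal.mem_map_of_mem _ ?_)
    have h6 : X i j = b.repr (x * b j) i := by
      rw [hX, Algebra.leftMulMatrix_apply, LinearMap.toMatrix_apply]
      rfl
    rw [← h6, ← Ideal.Quotient.eq_zero_iff_mem]
    have h7 := congrFun (congrFun h1 i) j
    rw [Matrix.map_apply] at h7
    exact h7
  · rw [Module.finrank_eq_card_basis b]
    exact hr1
  · rw [← Ideal.Quotient.eq_zero_iff_mem, map_sub, map_natCast, ← hr2,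
      Algebra.trace_eq_matrix_trace b, AddMonoidHom.map_trace]
    exact sub_self _

/-- in an extension of Dedekind domains -/
theorem trace_mod {R S : Type*} [CommRing R] [CommRing S] [Algebra R S] [IsDedekindDomain R]
    [IsDomain S] [Module.IsTorsionFree R S] [Module.Finite R S] [IsIntegrallyClosed S]
    (p : Ideal R) [p.IsMaximal] {s : ℕ} (hs : s ≠ 0) (P : Ideal S) [P.IsPrime]
    (hP : P.comap (algebraMap R S) = p) {x : S} (hx : x * x - x ∈ (p ^ s).map (algebraMap R S))
    (hxP : x ∉ P) :
    ∃ r : ℕ, 1 ≤ r ∧ r ≤ finrank R S ∧ Algebra.intTrace R S x - r ∈ p ^ s := by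
  let Rₚ := Localization.AtPrime p
  let Sₚ := Localization (Algebra.algebraMapSubmonoid S p.primeCompl)
  let : Algebra Rₚ Sₚ := localizationAlgebra p.primeCompl S
  have : IsScalarTower R Rₚ Sₚ := IsScalarTower.of_algebraMap_eq'
    (by rw [RingHom.algebraMap_toAlgebra, IsLocalization.map_comp, ← IsScalarTower.algebraMap_eq])
  have hloc : IsLocalization (Submonoid.map (algebraMap R S) (Ideal.primeCompl p)) Sₚ :=
    inferInstanceAs (IsLocalization (Algebra.algebraMapSubmonoid S p.primeCompl) Sₚ)
  have e : Algebra.algebraMapSubmonoid S p.primeCompl ≤ S⁰ :=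
    Submonoid.map_le_of_le_comap _ <| p.primeCompl_le_nonZeroDivisors.trans
      (nonZeroDivisors_le_comap_nonZeroDivisors_of_injective _
        (FaithfulSMul.algebraMap_injective _ _))
  have : IsDomain Sₚ := IsLocalization.isDomain_of_le_nonZeroDivisors _ e
  have : IsTorsionFree Rₚ Sₚ := by
    rw [isTorsionFree_iff_algebraMap_injective, RingHom.injective_iff_ker_eq_bot,
      RingHom.ker_eq_bot_iff_eq_zero]
    simp
  have : Module.Finite Rₚ Sₚ := .of_isLocalization R S p.primeCompl
  have : IsIntegrallyClosed Sₚ := isIntegrallyClosed_of_isLocalization _ _ e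
  have : IsPrincipalIdealRing Rₚ := by
    by_cases hp : p = ⊥
    · infer_instance
    · have := (IsDedekindDomain.isDedekindDomainDvr R).2 p hp inferInstance
      infer_instance
  have : Module.Free Rₚ Sₚ := Module.free_of_finite_type_torsion_free'
  set I : Ideal Rₚ := (p ^ s).map (algebraMap R Rₚ) with hI
  have hmap : I.map (algebraMap Rₚ Sₚ) = ((p ^ s).map (algebraMap R S)).map (algebraMap S Sₚ) := by
    rw [hI, Ideal.map_map, Ideal.map_map, ← IsScalarTower.algebraMap_eq,
      ← IsScalarTower.algebraMap_eq]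
  have hprim : (p ^ s).IsPrimary := by
    apply Ideal.isPrimary_of_isMaximal_radical
    rw [Ideal.radical_pow _ hs, Ideal.IsPrime.radical inferInstance]
    infer_instance
  have hdisj : Disjoint (p.primeCompl : Set R) (p ^ s : Ideal R) := by
    rw [Set.disjoint_left]
    intro a ha ha'
    exact ha (Ideal.pow_le_self hs ha')
  have hunder := IsLocalization.under_map_of_isPrimary_disjoint p.primeCompl Rₚ hprim hdisj
  have hI1 : I ≠ ⊤ := by
    intro h
    have h1 : (p ^ s : Ideal R) = ⊤ := by
      rw [← hunder, ← hI, h, Ideal.under_top]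
    exact hprim.1 h1
  have hPle : (p ^ s).map (algebraMap R S) ≤ P := by
    rw [Ideal.map_le_iff_le_comap, hP]
    exact Ideal.pow_le_self hs
  have hdisjP : Disjoint ((Algebra.algebraMapSubmonoid S p.primeCompl : Submonoid S) : Set S)
      (P : Set S) := by
    rw [Set.disjoint_left]
    rintro _ ⟨a, ha, rfl⟩ ha'
    apply ha
    rw [← hP]
    exact ha'
  obtain ⟨r, hr1, hr2, hr3⟩ := local_case (R := Rₚ) (S := Sₚ) I hI1 (x := algebraMap S Sₚ x) (by
    rw [hmap, ← map_mul, ← map_sub]
    exact Ideal.mem_map_of_mem _ hx) (by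
    rw [hmap]
    intro h
    apply hxP
    have h1 := Ideal.map_mono (f := algebraMap S Sₚ) hPle h
    have h2 := IsLocalization.under_map_of_isPrime_disjoint
      (Algebra.algebraMapSubmonoid S p.primeCompl) Sₚ (I := P) inferInstance hdisjP
    rw [← h2]
    exact h1)
  refine ⟨r, hr1, ?_, ?_⟩
  · have : IsLocalizedModule p.primeCompl (IsScalarTower.toAlgHom R S Sₚ).toLinearMap :=
      isLocalizedModule_iff_isLocalization.mpr inferInstance
    rw [IsLocalization.finrank_eq Rₚ p.primeCompl p.primeCompl_le_nonZeroDivisors,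
      IsLocalizedModule.finrank_eq p.primeCompl (IsScalarTower.toAlgHom R S Sₚ).toLinearMap
        p.primeCompl_le_nonZeroDivisors] at hr2
    exact hr2
  · rw [← hunder, Ideal.mem_comap, map_sub, map_natCast,
      Algebra.intTrace_eq_of_isLocalization R S p.primeCompl (Aₘ := Rₚ) (Bₘ := Sₚ) x,
      Algebra.intTrace_eq_trace]
    exact hr3

end Pool.Agent.Y729.DB
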