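import Mathlib
import Pool.Agent.Y729.DB.TrMod

/-!
# The exponent of a prime in the different
-/

set_option autoImplicit false

namespace Pool.Agent.Y729.DB

open Module nonZeroDivisors

attribute [local instance] FractionRing.liftAlgebra FractionRing.isScalarTower_liftAlgebra

theorem not_dvd_diff {A B : Type*} [CommRing A] [CommRing B] [Algebra A B] [IsDedekindDomain A]
    [IsDedekindDomain B] [Module.IsTorsionFree A B] [Module.Finite A B]
    [Algebra.IsSeparable (FractionRing A) (FractionRing B)]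
    (p : Ideal A) [p.IsMaximal] {s e : ℕ} (hs : s ≠ 0) (P : Ideal B) [P.IsMaximal]
    (hP : P.comap (algebraMap A B) = p)
    (he1 : P ^ e ∣ p.map (algebraMap A B)) (he2 : ¬ P ^ (e + 1) ∣ p.map (algebraMap A B))
    (hst : (((finrank A B).factorial : ℕ) : A) ∉ p ^ s) :
    ¬ P ^ (e * s) ∣ differentIdeal A B := by
  have he0 : e ≠ 0 := by
    rintro rfl
    apply he2
    rw [zero_add, pow_one, Ideal.dvd_iff_le, Ideal.map_le_iff_le_comap, hP]
  obtain ⟨Q0, hQ0⟩ := he1
  have hQ : ¬ P ∣ Q0 := by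
    rintro ⟨Q1, rfl⟩
    apply he2
    rw [hQ0]
    exact ⟨Q1, by rw [pow_succ, mul_assoc]⟩
  have hcop : IsCoprime (P ^ (e * s)) (Q0 ^ s) := by
    apply IsCoprime.pow
    rw [Ideal.isCoprime_iff_sup_eq]
    by_contra h
    have h1 : P ⊔ Q0 = P := by
      have h2 : P ≤ P ⊔ Q0 := le_sup_left
      exact (Ideal.IsMaximal.eq_of_le inferInstance h h2).symm
    apply hQ
    rw [Ideal.dvd_iff_le, ← h1]
    exact le_sup_right
  obtain ⟨a, ha, b, hb, hab⟩ := Ideal.isCoprime_iff_exists.1 hcop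
  have hPQ : P ^ (e * s) * Q0 ^ s = Ideal.map (algebraMap A B) (p ^ s) := by
    rw [Ideal.map_pow, hQ0, mul_pow, ← pow_mul]
  have haP : a ∈ P := Ideal.pow_le_self (mul_ne_zero he0 hs) ha
  have hbP : b ∉ P := by
    intro h
    have h1 : (1 : B) ∈ P := hab ▸ P.add_mem haP h
    exact (Ideal.ne_top_iff_one P).1 (Ideal.IsMaximal.ne_top inferInstance) h1
  have hbb : b * b - b ∈ (p ^ s).map (algebraMap A B) := by
    rw [← hPQ]
    have h1 : b * b - b = -(a * b) := by
      linear_combination b * hab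
    rw [h1]
    exact (Ideal.neg_mem_iff _).2 (Ideal.mul_mem_mul ha hb)
  obtain ⟨r, hr1, hr2, hr3⟩ := trace_mod p hs P hP hbb hbP
  refine not_dvd_differentIdeal_of_intTrace_not_mem A (P ^ (e * s)) (Q0 ^ s) hPQ b hb ?_
  intro h
  apply hst
  have h1 : ((r : ℕ) : A) ∈ p ^ s := by
    have := (p ^ s).sub_mem h hr3
    rwa [sub_sub_cancel] at this
  obtain ⟨k, hk⟩ := Nat.dvd_factorial (by omega : 0 < r) hr2
  rw [hk, Nat.cast_mul]
  exact (p ^ s).mul_mem_right _ h1

end Pool.Agent.Y729.DB
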