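import Mathlib
import Pool.Agent.Y729.DB.Norm
import Pool.Agent.Y729.FW.Leg

/-!
# The field generated by a point of order two is unramified at the primes of good reduction which do
not divide two
-/

set_option autoImplicit false

namespace Pool.Agent.Y729.DB

open Module NumberField IsDedekindDomain Polynomial
open Pool.Agent.TH876.FH (GoodAt)
open Pool.Agent.Y729.FW (v_b root_change v_four v_nat)

variable {k F : Type} [Field k] [NumberField k] [Field F] [NumberField F] [Algebra k F]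

/-- the discriminant of the cubic polynomial `x ^ 3 + a x ^ 2 + b x + c` -/
def cd {R : Type} [CommRing R] (a b c : R) : R :=
  a ^ 2 * b ^ 2 - 4 * b ^ 3 - 4 * a ^ 3 * c - 27 * c ^ 2 + 18 * a * b * c

theorem cd_id {R : Type} [CommRing R] (a b c x : R) :
    cd a b c = (x ^ 3 + a * x ^ 2 + b * x + c) *
      (3 * (6 * b - 2 * a ^ 2) * x - 3 * (9 * c - a * b) + 2 * a * (6 * b - 2 * a ^ 2)) -
      (3 * x ^ 2 + 2 * a * x + b) * ((6 * b - 2 * a ^ 2) * x ^ 2 +
        (a * (6 * b - 2 * a ^ 2) - (9 * c - a * b)) * x + (4 * b ^ 2 - a ^ 2 * b - 3 * a * c)) := by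
  unfold cd
  ring

theorem unram_aux (v : HeightOneSpectrum (𝓞 k)) (P : HeightOneSpectrum (𝓞 F))
    (hP : P.asIdeal.comap (algebraMap (𝓞 k) (𝓞 F)) = v.asIdeal) (a b c : 𝓞 k) (β : 𝓞 F)
    (hβ : β ^ 3 + algebraMap (𝓞 k) (𝓞 F) a * β ^ 2 + algebraMap (𝓞 k) (𝓞 F) b * β +
      algebraMap (𝓞 k) (𝓞 F) c = 0)
    (hadj : Algebra.adjoin k {algebraMap (𝓞 F) F β} = ⊤) (hd : cd a b c ∉ v.asIdeal) :
    ¬ P.asIdeal ∣ differentIdeal (𝓞 k) (𝓞 F) := by
  intro hdvd
  set h : (𝓞 k)[X] := X ^ 3 + C a * X ^ 2 + C b * X + C c with hh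
  have hroot : aeval β h = 0 := by
    rw [hh]
    simpa using hβ
  have hint : IsIntegral (𝓞 k) β := Algebra.IsIntegral.isIntegral β
  obtain ⟨q, hq⟩ := minpoly.isIntegrallyClosed_dvd hint hroot
  have h1 : aeval β (derivative h) =
      aeval β (derivative (minpoly (𝓞 k) β)) * aeval β q := by
    rw [hq, derivative_mul, map_add, map_mul, map_mul, minpoly.aeval, zero_mul, add_zero]
  have h2 : aeval β (derivative (minpoly (𝓞 k) β)) ∈ differentIdeal (𝓞 k) (𝓞 F) :=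
    aeval_derivative_mem_differentIdeal (𝓞 k) k F β hadj
  have h3 : aeval β (derivative h) ∈ P.asIdeal := by
    rw [h1]
    exact P.asIdeal.mul_mem_right _ (Ideal.dvd_iff_le.1 hdvd h2)
  have h4 : aeval β (derivative h) = 3 * β ^ 2 + 2 * algebraMap (𝓞 k) (𝓞 F) a * β +
      algebraMap (𝓞 k) (𝓞 F) b := by
    rw [hh]
    simp only [derivative_mul, derivative_X_pow, derivative_C, derivative_X,
      map_add, map_mul, aeval_C, aeval_X, map_pow, map_zero, map_one, map_natCast]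
    push_cast
    ring
  apply hd
  rw [← hP, Ideal.mem_comap]
  have h5 : algebraMap (𝓞 k) (𝓞 F) (cd a b c) = cd (algebraMap (𝓞 k) (𝓞 F) a)
      (algebraMap (𝓞 k) (𝓞 F) b) (algebraMap (𝓞 k) (𝓞 F) c) := by
    unfold cd
    simp only [map_add, map_sub, map_mul, map_pow, map_ofNat]
  rw [h5, cd_id _ _ _ β, hβ, zero_mul, zero_sub, Ideal.neg_mem_iff, ← h4]
  exact P.asIdeal.mul_mem_right _ h3

theorem cd_curve {R : Type} [Field R] (E : WeierstrassCurve R) (c : R) :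
    cd (c * E.b₂) (8 * c ^ 2 * E.b₄) (16 * c ^ 3 * E.b₆) = c ^ 6 * (256 * E.Δ) := by
  have h8 : 4 * E.b₈ = E.b₂ * E.b₆ - E.b₄ ^ 2 := E.b_relation
  rw [WeierstrassCurve.Δ]
  unfold cd
  linear_combination 64 * c ^ 6 * E.b₂ ^ 2 * h8

/-- **The field generated by a point of order two** is unramified at the primes of good reduction
which do not divide two. -/
theorem unram (E : WeierstrassCurve k) (v : HeightOneSpectrum (𝓞 k)) (hg : GoodAt v E)
    (h2 : v.valuation k (2 : k) = 1) (α : F)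
    (hα : 4 * α ^ 3 + algebraMap k F E.b₂ * α ^ 2 + 2 * algebraMap k F E.b₄ * α +
      algebraMap k F E.b₆ = 0)
    (hadj : Algebra.adjoin k {α} = ⊤) (P : HeightOneSpectrum (𝓞 F))
    (hP : P.asIdeal.comap (algebraMap (𝓞 k) (𝓞 F)) = v.asIdeal) :
    ¬ P.asIdeal ∣ differentIdeal (𝓞 k) (𝓞 F) := by
  obtain ⟨W, h1, h2', h3, h4, h6, hΔ⟩ := hg
  obtain ⟨hb2, hb4, hb6⟩ := v_b (v.valuation k) h2 (W • E) h1 h2' h3 h4 h6
  set E' := W • E with hE'
  set U : k := ((W.u⁻¹ : kˣ) : k) with hU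
  have hU0 : U ≠ 0 := Units.ne_zero _
  have e2 : E'.b₂ = U ^ 2 * (E.b₂ + 12 * W.r) := WeierstrassCurve.variableChange_b₂ E W
  have e4 : E'.b₄ = U ^ 4 * (E.b₄ + W.r * E.b₂ + 6 * W.r ^ 2) :=
    WeierstrassCurve.variableChange_b₄ E W
  have e6 : E'.b₆ = U ^ 6 * (E.b₆ + 2 * W.r * E.b₄ + W.r ^ 2 * E.b₂ + 4 * W.r ^ 3) :=
    WeierstrassCurve.variableChange_b₆ E W
  obtain ⟨n2, d2, hd2⟩ := v.exists_primeCompl_mul_eq_of_integer _ hb2
  obtain ⟨n4, d4, hd4⟩ := v.exists_primeCompl_mul_eq_of_integer _ hb4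
  obtain ⟨n6, d6, hd6⟩ := v.exists_primeCompl_mul_eq_of_integer _ hb6
  set c : 𝓞 k := (d2 : 𝓞 k) * d4 * d6 with hc
  have hcv : c ∉ v.asIdeal := fun h => by
    rcases v.isPrime.mem_or_mem h with h | h
    · rcases v.isPrime.mem_or_mem h with h | h
      · exact d2.2 h
      · exact d4.2 h
    · exact d6.2 h
  have hcv1 : v.valuation k (c : k) = 1 := by
    refine le_antisymm (v.valuation_le_one c) (not_lt.1 fun h => hcv ?_)
    exact (v.valuation_lt_one_iff_mem c).1 h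
  have hc0 : (c : k) ≠ 0 := by
    intro h
    rw [h, map_zero] at hcv1
    exact zero_ne_one hcv1
  set a0 : 𝓞 k := n2 * d4 * d6 with ha0
  set b0 : 𝓞 k := 8 * c * (n4 * d2 * d6) with hb0
  set c0 : 𝓞 k := 16 * c ^ 2 * (n6 * d2 * d4) with hc0'
  have ka : ((a0 : 𝓞 k) : k) = c * E'.b₂ := by
    rw [ha0, hc]
    simp only [map_mul]
    linear_combination -((d4 : 𝓞 k) : k) * ((d6 : 𝓞 k) : k) * hd2
  have kb : ((b0 : 𝓞 k) : k) = 8 * c ^ 2 * E'.b₄ := by
    rw [hb0, hc]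
    simp only [map_mul, map_ofNat]
    linear_combination -8 * ((d2 : 𝓞 k) : k) ^ 2 * ((d4 : 𝓞 k) : k) * ((d6 : 𝓞 k) : k) ^ 2 * hd4
  have kc : ((c0 : 𝓞 k) : k) = 16 * c ^ 3 * E'.b₆ := by
    rw [hc0', hc]
    simp only [map_mul, map_pow, map_ofNat]
    linear_combination -16 * ((d2 : 𝓞 k) : k) ^ 3 * ((d4 : 𝓞 k) : k) ^ 3 *
      ((d6 : 𝓞 k) : k) ^ 2 * hd6
  -- the generator
  set φ : k →+* F := algebraMap k F with hφ
  set β : F := 4 * φ c * (φ U ^ 2 * (α - φ W.r)) with hβ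
  have hβr : β ^ 3 + φ a0 * β ^ 2 + φ b0 * β + φ c0 = 0 := by
    rw [ka, kb, kc, e2, e4, e6, hβ]
    simp only [map_mul, map_pow, map_add, map_ofNat]
    linear_combination 16 * φ c ^ 3 * φ U ^ 6 * hα
  have hφ' : ∀ x : 𝓞 k, φ x = ((algebraMap (𝓞 k) (𝓞 F) x : 𝓞 F) : F) := fun x => rfl
  have hβi : IsIntegral ℤ β := by
    refine isIntegral_trans (R := ℤ) (A := 𝓞 k) β ?_
    refine ⟨X ^ 3 + C a0 * X ^ 2 + C b0 * X + C c0, ?_, ?_⟩
    · have : (X ^ 3 + C a0 * X ^ 2 + C b0 * X + C c0 : (𝓞 k)[X]) =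
          X ^ (2 + 1) + (C a0 * X ^ 2 + C b0 * X + C c0) := by ring
      rw [this]
      exact Polynomial.monic_X_pow_add (lt_of_le_of_lt Polynomial.degree_quadratic_le (by norm_num))
    · rw [← Polynomial.aeval_def]
      have : aeval β (X ^ 3 + C a0 * X ^ 2 + C b0 * X + C c0 : (𝓞 k)[X]) =
          β ^ 3 + φ a0 * β ^ 2 + φ b0 * β + φ c0 := by
        simp [IsScalarTower.algebraMap_apply (𝓞 k) k F, hφ]
      rw [this]
      exact hβr
  refine unram_aux v P hP a0 b0 c0 ⟨β, hβi⟩ ?_ ?_ ?_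
  · apply NumberField.RingOfIntegers.ext
    push_cast
    exact hβr
  · rw [eq_top_iff, ← hadj]
    refine Algebra.adjoin_le ?_
    rw [Set.singleton_subset_iff]
    have h5 : α = φ (4 * c * U ^ 2)⁻¹ * β + φ W.r := by
      have h6 : φ (4 * c * U ^ 2) ≠ 0 := by
        rw [Ne, map_eq_zero]
        exact mul_ne_zero (mul_ne_zero (by norm_num) hc0) (pow_ne_zero _ hU0)
      have h8 : β = φ (4 * c * U ^ 2) * (α - φ W.r) := by
        rw [hβ]
        simp only [map_mul, map_pow, map_ofNat]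
        ring
      rw [map_inv₀, h8, inv_mul_cancel_left₀ h6]
      ring
    have h7 : α ∈ Algebra.adjoin k {β} := by
      rw [h5]
      refine Subalgebra.add_mem _ (Subalgebra.mul_mem _ ?_ ?_) ?_
      · exact Subalgebra.algebraMap_mem _ _
      · exact Algebra.subset_adjoin (Set.mem_singleton _)
      · exact Subalgebra.algebraMap_mem _ _
    exact h7
  · intro hmem
    have h5 : v.valuation k ((cd a0 b0 c0 : 𝓞 k) : k) < 1 := (v.valuation_lt_one_iff_mem _).2 hmem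
    have h6 : ((cd a0 b0 c0 : 𝓞 k) : k) = cd (a0 : k) (b0 : k) (c0 : k) := by
      unfold cd
      push_cast
      rfl
    rw [h6, ka, kb, kc, cd_curve] at h5
    have h256 : v.valuation k (256 : k) = 1 := by
      have : (256 : k) = 2 ^ 8 := by norm_num
      rw [this, map_pow, h2, one_pow]
    rw [map_mul, map_mul, map_pow, hcv1, h256, hΔ, one_pow, one_mul, one_mul] at h5
    exact lt_irrefl _ h5

end Pool.Agent.Y729.DB
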